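import Pool.Agent.Helper69.HA.Defs2
import Pool.Agent.Helper72.HA.Names

/-!
# Project HA, module HA-4: nice conditions are dense
-/

set_option autoImplicit false
set_option linter.unusedSectionVars false

namespace Pool.Agent.Helper69.HA

open Set Pool.Agent.Helper33.HM Pool.Agent.Helper33.HMG Pool.Agent.Helper32.HB
open Pool.Agent.Helper52.MA (El IsOmega1 setsM pairN numN on wN setN st)

universe u

section Forcing

variable {I : Type u} [LinearOrder I] [WellFoundedLT I] {Ω : Type} [LinearOrder Ω]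
  {e : Ω → ℕ → Ω → Prop} {code : I → Ω → Set (Cond I Ω)}

/-- Finitely many levels can be decided. -/
theorem nice_dense (j : I) (T : Set Ω) (hT : T.Finite) (p : PC e code) :
    ∃ q, q ≤ p ∧ (∀ k, j ≤ k → q.f k = p.f k) ∧ ∀ γ ∈ T, ∃ k v, q ∈ Dv j γ k v := by
  induction T, hT using Set.Finite.induction_on with
  | empty => exact ⟨p, le_rfl, fun _ _ => rfl, fun γ hγ => hγ.elim⟩
  | @insert γ T _ _ ih =>
    obtain ⟨q, hq, hqf, hqT⟩ := ih
    obtain ⟨r, hr, hrf, k, v, hkv⟩ := Dv_dense q j γ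
    refine ⟨r, hr.trans hq, fun k hk => (hrf k hk).trans (hqf k hk), ?_⟩
    rintro γ' (rfl | hγ')
    · exact ⟨k, v, hkv⟩
    · obtain ⟨k', v', h⟩ := hqT γ' hγ'
      exact ⟨k', v', RO.mem_lower hr h⟩

/-- The closure of the promises at `j`. -/
inductive NiceCl (q : PC e code) (j : I) : Ω → ℕ → Prop
  | base (γ : Ω) (n : ℕ) : (q.f j).F γ n → NiceCl q j γ n
  | step (γ : Ω) (n : ℕ) (k : I) (v : Bool) (m x : ℕ) (γ' : Ω) : NiceCl q j γ n →
      q ∈ Dv j γ k v → (q.f k).c γ m = some x → e γ m γ' → NiceCl q j γ' n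

theorem nice_pre (he : EnumL (fun x y : Ω => x < y) e) (A : Set (Ω × ℕ)) (hA : A.Finite) :
    {γ | ∃ z ∈ A, e z.1 z.2 γ}.Finite := by
  have h : {γ | ∃ z ∈ A, e z.1 z.2 γ} = ⋃ z ∈ A, {γ | e z.1 z.2 γ} := by
    ext γ
    simp
  rw [h]
  refine hA.biUnion fun z _ => Set.Subsingleton.finite fun γ hγ γ' hγ' => ?_
  exact he.func _ _ _ _ hγ hγ'

theorem nice_cfin (q : PC e code) : {z : Ω × ℕ | ∃ k, (q.f k).c z.1 z.2 ≠ none}.Finite := by
  have h : {z : Ω × ℕ | ∃ k, (q.f k).c z.1 z.2 ≠ none} ⊆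
      ⋃ k ∈ {k | q.c.f k ≠ Dat.emp}, {z : Ω × ℕ | (q.f k).c z.1 z.2 ≠ none} := by
    rintro z ⟨k, hk⟩
    simp only [mem_iUnion]
    refine ⟨k, ?_, hk⟩
    intro h0
    apply hk
    change (q.c.f k).c z.1 z.2 = none
    rw [h0]
    rfl
  exact (q.c.fin.biUnion fun k _ => (q.f k).finc).subset h

theorem nice_clfin (he : EnumL (fun x y : Ω => x < y) e) (q : PC e code) (j : I) :
    {z : Ω × ℕ | NiceCl q j z.1 z.2}.Finite := by
  have h1 : ((fun z : Ω × ℕ => z.1) '' {z : Ω × ℕ | (q.f j).F z.1 z.2}).Finite :=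
    (q.f j).finF.image _
  have h2 : ((fun z : Ω × ℕ => z.2) '' {z : Ω × ℕ | (q.f j).F z.1 z.2}).Finite :=
    (q.f j).finF.image _
  have h3 := nice_pre he _ (nice_cfin q)
  refine ((h1.union h3).prod h2).subset ?_
  rintro ⟨γ, n⟩ h
  change NiceCl q j γ n at h
  induction h with
  | base γ n h => exact ⟨Or.inl ⟨(γ, n), h, rfl⟩, ⟨(γ, n), h, rfl⟩⟩
  | step γ n k v m x γ' _ _ hc hm ih =>
    refine ⟨Or.inr ⟨(γ, m), ⟨k, ?_⟩, hm⟩, ih.2⟩
    change (q.f k).c γ m ≠ none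
    rw [hc]
    simp

/-- The datum with the closed promises. -/
def niceDat (he : EnumL (fun x y : Ω => x < y) e) (q : PC e code) (j : I) : Dat Ω where
  c := (q.f j).c
  φ := (q.f j).φ
  F := NiceCl q j
  finc := (q.f j).finc
  finφ := (q.f j).finφ
  finF := nice_clfin he q j

/-- The step: `j` is the greatest place. -/
theorem nice_step (he : EnumL (fun x y : Ω => x < y) e) (j : I)
    (hL : ∀ p : PC e code, p.lt j → ∃ q, q ≤ p ∧ Nice q ∧
      ∀ k, q.f k ≠ Dat.emp → ∃ j, k ≤ j ∧ p.f j ≠ Dat.emp)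
    (p : PC e code) (hmax : ∀ k, p.f k ≠ Dat.emp → k ≤ j) :
    ∃ q, q ≤ p ∧ Nice q ∧ ∀ k, q.f k ≠ Dat.emp → k ≤ j := by
  -- the levels
  have hT : ({γ | ∃ n, (p.f j).F γ n} ∪
      {γ | ∃ z ∈ {z : Ω × ℕ | (p.f j).c z.1 z.2 ≠ none}, e z.1 z.2 γ}).Finite := by
    refine Set.Finite.union ?_ (nice_pre he _ (p.f j).finc)
    refine ((p.f j).finF.image (fun z : Ω × ℕ => z.1)).subset ?_
    rintro γ ⟨n, hn⟩
    exact ⟨(γ, n), hn, rfl⟩
  obtain ⟨q1, hq1, hq1f, hq1T⟩ := nice_dense j _ hT p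
  obtain ⟨q', hq', hnice, hsupp⟩ := hL (q1.res j) (PC.res_lt _ _)
  have hq'lt : q'.lt j := by
    intro k hk
    obtain ⟨j', hj', hj'e⟩ := hsupp k hk
    exact hj'.trans_lt (PC.res_lt q1 j j' hj'e)
  let q2 : PC e code := PC.glue j q' q1
  have hq21 : q2 ≤ q1 := PC.glue_le_right hq'
  have hq2q' : q2 ≤ q' := PC.glue_le_left hq'lt q1
  have hq2f : ∀ k, q2.f k = if k < j then q'.f k else q1.f k := fun k => PC.glue_f _ _ _ _
  have hq2j : q2.f j = p.f j := by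
    rw [hq2f, if_neg (lt_irrefl j)]
    exact hq1f j le_rfl
  have hq2a : ∀ k, j < k → q2.f k = Dat.emp := by
    intro k hk
    rw [hq2f, if_neg (not_lt.2 hk.le), hq1f k hk.le]
    by_contra hne
    exact absurd (hmax k hne) (not_le.2 hk)
  let q3 : PC e code := PC.put q2 j (niceDat he q2 j)
  have hq3f : ∀ k, q3.f k = if k = j then niceDat he q2 j else q2.f k := fun k => PC.put_f _ _ _ _
  have hq3j : q3.f j = niceDat he q2 j := by rw [hq3f, if_pos rfl]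
  have hq3n : ∀ k, k ≠ j → q3.f k = q2.f k := fun k hk => by rw [hq3f, if_neg hk]
  have hq3c : ∀ k, (q3.f k).c = (q2.f k).c := by
    intro k
    by_cases hk : k = j
    · subst hk
      rw [hq3j]
      rfl
    · rw [hq3n k hk]
  have hq3φ : ∀ k, (q3.f k).φ = (q2.f k).φ := by
    intro k
    by_cases hk : k = j
    · subst hk
      rw [hq3j]
      rfl
    · rw [hq3n k hk]
  have hq3F : ∀ k δ n, (q2.f k).F δ n → (q3.f k).F δ n := by
    intro k δ n h
    by_cases hk : k = j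
    · subst hk
      rw [hq3j]
      exact NiceCl.base δ n h
    · rw [hq3n k hk]
      exact h
  have hq32 : q3 ≤ q2 := by
    rw [PC.le_iff]
    intro i
    refine ⟨⟨fun δ m a h => ?_, fun ξ n h => ?_, hq3F i⟩, fun ξ n δ h h' => ?_⟩
    · rw [hq3c]; exact h
    · rw [hq3φ]; exact h
    · rw [hq3φ, h'] at h
      exact absurd h (by simp)
  have hq31 : q3 ≤ q1 := hq32.trans hq21
  have hq3q' : q3 ≤ q' := hq32.trans hq2q'
  have hq3lt : ∀ k, k < j → q3.f k = q'.f k := by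
    intro k hk
    rw [hq3n k hk.ne, hq2f, if_pos hk]
  have hres : q3.res j = q2.res j := PC.put_res _ _ _ le_rfl
  have hDv : ∀ γ k v, q3 ∈ Dv j γ k v ↔ q2 ∈ Dv j γ k v := by
    intro γ k v
    rw [← mem_res_iff (Dv_mem j γ k v), ← mem_res_iff (p := q2) (Dv_mem j γ k v), hres]
  -- the third property
  have n3 : ∀ k δ m x γ, (q3.f k).c δ m = some x → e δ m γ → ∃ k' v', q3 ∈ Dv k γ k' v' := by
    intro k δ m x γ hc hm
    rcases lt_trichotomy k j with hk | hk | hk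
    · rw [hq3lt k hk] at hc
      obtain ⟨k', v', h⟩ := hnice.n3 k δ m x γ hc hm
      exact ⟨k', v', RO.mem_lower hq3q' h⟩
    · subst hk
      rw [hq3c, hq2j] at hc
      obtain ⟨k', v', h⟩ := hq1T γ (Or.inr ⟨(δ, m), by
        change (p.f k).c δ m ≠ none
        rw [hc]; simp, hm⟩)
      exact ⟨k', v', RO.mem_lower hq31 h⟩
    · rw [hq3c, hq2a k hk] at hc
      exact absurd hc (by simp [Dat.emp])
  refine ⟨q3, hq31.trans hq1, ⟨?_, ?_, n3⟩, ?_⟩
  · intro i δ n hF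
    rcases lt_trichotomy i j with hi | hi | hi
    · rw [hq3lt i hi] at hF
      obtain ⟨k, v, h⟩ := hnice.n1 i δ n hF
      exact ⟨k, v, RO.mem_lower hq3q' h⟩
    · subst hi
      rw [hq3j] at hF
      change NiceCl q2 i δ n at hF
      induction hF with
      | base γ n h =>
        rw [hq2j] at h
        obtain ⟨k', v', h'⟩ := hq1T γ (Or.inl ⟨n, h⟩)
        exact ⟨k', v', RO.mem_lower hq31 h'⟩
      | step γ n k v m x γ' _ hk hc hm _ =>
        have hk3 : q3 ∈ Dv i γ k v := (hDv γ k v).2 hk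
        rw [← hq3c] at hc
        obtain ⟨k', v', h'⟩ := n3 k γ m x γ' hc hm
        exact ⟨k', v', (Dv_coh hk3 (he.below _ _ _ hm)).2 h'⟩
    · rw [hq3n i hi.ne', hq2a i hi] at hF
      exact hF.elim
  · intro i δ n k v m x γ hF hk hc hm
    rcases lt_trichotomy i j with hi | hi | hi
    · rw [hq3lt i hi] at hF ⊢
      obtain ⟨k1, v1, h1⟩ := hnice.n1 i δ n hF
      obtain ⟨rfl, rfl⟩ := Dv_fun hk (RO.mem_lower hq3q' h1)
      have hki : k ≤ i := (mem_Dv.1 h1).1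
      rw [hq3lt k (hki.trans_lt hi)] at hc
      exact hnice.n2 i δ n k v m x γ hF h1 hc hm
    · subst hi
      rw [hq3j] at hF ⊢
      rw [hq3c] at hc
      exact NiceCl.step δ n k v m x γ hF ((hDv δ k v).1 hk) hc hm
    · rw [hq3n i hi.ne', hq2a i hi] at hF
      exact hF.elim
  · intro k hk
    by_contra hlt
    rw [not_le] at hlt
    exact hk (by rw [hq3n k hlt.ne', hq2a k hlt])

theorem nice_of_empty {p : PC e code} (h : ∀ k, p.f k = Dat.emp) : Nice p := by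
  refine ⟨fun i δ n hF => ?_, fun i δ n k v m x γ hF => ?_, fun k δ m x γ hc => ?_⟩
  · rw [h] at hF; exact hF.elim
  · rw [h] at hF; exact hF.elim
  · rw [h] at hc; exact absurd hc (by simp [Dat.emp])

theorem nice_main (he : EnumL (fun x y : Ω => x < y) e) (p : PC e code)
    (hL : ∀ j, p.f j ≠ Dat.emp → ∀ p : PC e code, p.lt j → ∃ q, q ≤ p ∧ Nice q ∧
      ∀ k, q.f k ≠ Dat.emp → ∃ j, k ≤ j ∧ p.f j ≠ Dat.emp) :
    ∃ q, q ≤ p ∧ Nice q ∧ ∀ k, q.f k ≠ Dat.emp → ∃ j, k ≤ j ∧ p.f j ≠ Dat.emp := by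
  by_cases hemp : ∀ k, p.f k = Dat.emp
  · exact ⟨p, le_rfl, nice_of_empty hemp, fun k hk => ⟨k, le_rfl, hk⟩⟩
  · push Not at hemp
    obtain ⟨k0, hk0⟩ := hemp
    have hfin : {k | p.f k ≠ Dat.emp}.Finite := p.c.fin
    obtain ⟨j, hj, hjmax⟩ := Set.exists_max_image _ (fun k => k) hfin ⟨k0, hk0⟩
    obtain ⟨q, hq, hn, hs⟩ := nice_step he j (hL j hj) p hjmax
    exact ⟨q, hq, hn, fun k hk => ⟨j, hs k hk, hj⟩⟩

theorem nice_lt (he : EnumL (fun x y : Ω => x < y) e) (i : I) : ∀ p : PC e code, p.lt i →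
    ∃ q, q ≤ p ∧ Nice q ∧ ∀ k, q.f k ≠ Dat.emp → ∃ j, k ≤ j ∧ p.f j ≠ Dat.emp := by
  induction i using WellFoundedLT.induction with
  | ind i ih =>
    intro p hp
    exact nice_main he p fun j hj => ih j (hp j hj)

theorem exists_nice [WellFoundedLT Ω] (he : EnumL (fun x y => x < y) e) (p : PC e code) :
    ∃ q, q ≤ p ∧ Nice q ∧ ∀ k, q.f k ≠ Dat.emp → ∃ j, k ≤ j ∧ p.f j ≠ Dat.emp :=
  nice_main he p fun j _ => nice_lt he j

end Forcing

end Pool.Agent.Helper69.HA
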